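import Mathlib
import Pool.Agent.H.MP_4bdd60_an.V.Gau2

/-!
# MP_4bdd60_an: loop points in a given interval
-/

set_option autoImplicit false

namespace Pool.Agent.H.MP_4bdd60_an

open MeasureTheory Set Filter
open scoped ENNReal Topology

open LP in
/-- loop points with their place -/
theorem exists_loopPointsQ (h : ℝ → ℝ) (hh : StrictMono h) (ν : Measure ℝ) [IsProbabilityMeasure ν]
    (B s p : ℝ) (hB : 0 ≤ B) (hs0 : 0 < s) (hs : s < 1) (hp0 : 0 < p) (hp : p < 2)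
    (h1 : ∀ u v, u ≤ v → ∀ t : ℝ, 0 < t → t ≤ 1 → ENNReal.ofReal t ≤ ν (Icc u v) →
      Real.exp (-(B * t ^ (-s))) ≤ v - u)
    (h2 : ∀ u v, u ≤ v → ∀ t : ℝ, 0 < t → t ≤ 1 → ENNReal.ofReal t ≤ ν (Icc u v) →
      Real.exp (-(B * t ^ (-s))) ≤ h v - h u)
    (hfr : ∃ᶠ t in 𝓝[>] (0:ℝ), ∀ u v, u ≤ v → ENNReal.ofReal t ≤ ν (Icc u v) →
      Real.exp (-(B * Real.log (1 / t) ^ p)) ≤ v - u ∧
      Real.exp (-(B * Real.log (1 / t) ^ p)) ≤ h v - h u)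
    {c d : ℝ} (hcd : ν (Icc c d)ᶜ = 0) :
    ∃ a b : ℝ, c ≤ a ∧ a < b ∧ b ≤ d ∧ LoopPoint h a ∧ LoopPoint h b := by
  have hm := YY_mono ν
  have hm2 : Monotone (fun w => h (YY ν w)) := hh.monotone.comp hm
  have g1 : ∀ u v, 0 ≤ u → u < v → v ≤ 1 →
      Real.exp (-(B * ((v - u) / 2) ^ (-s))) ≤ YY ν v - YY ν u := fun u v hu huv hv =>
    h1 _ _ (hm huv.le) _ (by linarith) (by linarith) (YY_mass ν hu huv.le hv)
  have g2 : ∀ u v, 0 ≤ u → u < v → v ≤ 1 →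
      Real.exp (-(B * ((v - u) / 2) ^ (-s))) ≤ (fun w => h (YY ν w)) v - (fun w => h (YY ν w)) u :=
    fun u v hu huv hv =>
    h2 _ _ (hm huv.le) _ (by linarith) (by linarith) (YY_mass ν hu huv.le hv)
  have i₁ : Inc (YY ν) := ⟨hm, fun {u v} hu huv hv => by
    have := g1 u v hu huv hv
    have := Real.exp_pos (-(B * ((v - u) / 2) ^ (-s)))
    linarith⟩
  have i₂ : Inc (fun w => h (YY ν w)) := ⟨hm2, fun {u v} hu huv hv => by
    have := g2 u v hu huv hv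
    have := Real.exp_pos (-(B * ((v - u) / 2) ^ (-s)))
    linarith⟩
  have h2p : (2 : ℝ) ^ p ≤ 4 := by
    calc (2 : ℝ) ^ p ≤ (2 : ℝ) ^ (2 : ℝ) := Real.rpow_le_rpow_of_exponent_le (by norm_num) hp.le
      _ = 4 := by norm_num
  set B₁ : ℝ := 4 * B + |Real.log (YY ν 1 - YY ν 0)| with hB₁
  set B₂ : ℝ := 4 * B + |Real.log ((fun w => h (YY ν w)) 1 - (fun w => h (YY ν w)) 0)| with hB₂
  have hB₁0 : 0 ≤ B₁ := by positivity
  have hB₂0 : 0 ≤ B₂ := by positivity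
  have hD₁ : ∀ m : ℕ, D (YY ν) 0 m ≤ ENNReal.ofReal ((B₁ + B₂) * (2 : ℝ) ^ (s * m)) := fun m => by
    refine (Gau_pow hB hs0 hs g1 m).trans (ENNReal.ofReal_le_ofReal ?_)
    have h4 : (0 : ℝ) ≤ (2 : ℝ) ^ (s * m) := by positivity
    exact mul_le_mul_of_nonneg_right (by linarith) h4
  have hD₂ : ∀ m : ℕ, D (fun w => h (YY ν w)) 0 m ≤
      ENNReal.ofReal ((B₁ + B₂) * (2 : ℝ) ^ (s * m)) := fun m => by
    refine (Gau_pow hB hs0 hs g2 m).trans (ENNReal.ofReal_le_ofReal ?_)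
    have h4 : (0 : ℝ) ≤ (2 : ℝ) ^ (s * m) := by positivity
    exact mul_le_mul_of_nonneg_right (by linarith) h4
  have hlev : ∃ᶠ m : ℕ in atTop,
      D (YY ν) 0 m ≤ ENNReal.ofReal ((B₁ + B₂) * ((m : ℝ) + 1) ^ p) ∧
      D (fun w => h (YY ν w)) 0 m ≤ ENNReal.ofReal ((B₁ + B₂) * ((m : ℝ) + 1) ^ p) := by
    refine Gau_levels hfr ?_
    intro t m hP ht1 ht2
    have ht3 : t ≤ 1 := ht2.trans (pow_le_one₀ (by norm_num) (by norm_num))
    have hmass : ∀ u v : ℝ, 0 ≤ u → u ≤ v → v ≤ 1 → v - u = 1 / 2 ^ m →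
        ENNReal.ofReal t ≤ ν (Icc (YY ν u) (YY ν v)) := by
      intro u v hu huv hv hd
      refine le_trans (ENNReal.ofReal_le_ofReal ?_) (YY_mass ν hu huv hv)
      rw [hd]
      refine ht2.trans (le_of_eq ?_)
      rw [pow_succ, one_div_pow]
      ring
    have h4 : (0 : ℝ) ≤ ((m : ℝ) + 1) ^ p := by positivity
    have h5 : (2 : ℝ) ^ p * B ≤ 4 * B := mul_le_mul_of_nonneg_right h2p hB
    constructor
    · refine (Gau_str m hB hp0 ht1 ht3 (fun u v hu huv hv hd =>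
        (hP _ _ (hm huv) (hmass u v hu huv hv hd)).1)).trans (ENNReal.ofReal_le_ofReal ?_)
      exact mul_le_mul_of_nonneg_right (by linarith) h4
    · refine (Gau_str (Y := fun w => h (YY ν w)) m hB hp0 ht1 ht3 (fun u v hu huv hv hd =>
        (hP _ _ (hm huv) (hmass u v hu huv hv hd)).2)).trans (ENNReal.ofReal_le_ofReal ?_)
      exact mul_le_mul_of_nonneg_right (by linarith) h4
  obtain ⟨y, y', hy0, hyy', hy1, hy, hy'⟩ :=
    str_loopParams i₁ i₂ (B := B₁ + B₂) (by positivity) hs0 hs hp0 hp hD₁ hD₂ hlev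
  have key : ∀ w : ℝ, w ≤ 1 → LoopParam (YY ν) (fun w => h (YY ν w)) w →
      LoopPoint h (YY ν w) := by
    intro w hw1 hw ρ1 ρ2 hρ1 hρ2 hI1 hI2 ε hε η hη
    obtain ⟨c, x, s1, s2, p0, p1, p2, p3, p4, p5, p6, p7, q1, q2, q3, q4, r1, r2, r3, r4⟩ :=
      hw ρ1 ρ2 hρ1 hρ2 hI1 hI2 ε hε η hη
    exact ⟨YY ν c, YY ν x, s1, s2, p4, i₁.lt p0 p1 hw1, i₁.lt (p0.trans p1.le) p2 p3, p5, p6, p7,
      q1, q2, q3, q4, r1, r2, r3, r4⟩
  have hy00 : 0 < y := by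
    obtain ⟨c', x', s1, s2, p0, p1, _⟩ := hy (fun _ => 0) (fun _ => 0) measurable_const
      measurable_const (by simp) (by simp) 1 one_pos 1 one_pos
    exact lt_of_le_of_lt p0 p1
  have hnull : ∀ u v : ℝ, 0 ≤ u → u < v → v ≤ 1 → (Icc (YY ν u) (YY ν v) ∩ Icc c d).Nonempty := by
    intro u v hu huv hv
    by_contra hcon
    rw [not_nonempty_iff_eq_empty, ← disjoint_iff_inter_eq_empty] at hcon
    have h3 := (YY_mass ν hu huv.le hv).trans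
      ((measure_mono (hcon.subset_compl_right)).trans hcd.le)
    rw [nonpos_iff_eq_zero, ENNReal.ofReal_eq_zero] at h3
    linarith
  have hc : c ≤ YY ν y := by
    obtain ⟨z, hz1, hz2⟩ := hnull 0 y le_rfl hy00 (hyy'.le.trans hy1.le)
    exact hz2.1.trans hz1.2
  have hd : YY ν y' ≤ d := by
    obtain ⟨z, hz1, hz2⟩ := hnull y' 1 (hy00.le.trans hyy'.le) hy1 le_rfl
    exact hz1.1.trans hz2.2
  exact ⟨YY ν y, YY ν y', hc, i₁.lt hy0 hyy' hy1.le, hd, key y (hyy'.le.trans hy1.le) hy,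
    key y' hy1.le hy'⟩

end Pool.Agent.H.MP_4bdd60_an
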