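import Mathlib
import Pool.Agent.H.MP_4bdd60_an.W.Loc

/-!
# MP_4bdd60_an: loop points in every interval of positive mass
-/

set_option autoImplicit false

namespace Pool.Agent.H.MP_4bdd60_an

open MeasureTheory Set Filter
open scoped ENNReal Topology

theorem loops_in (h : ℝ → ℝ) (hh : StrictMono h) (ν : Measure ℝ) [IsProbabilityMeasure ν]
    (B s p : ℝ) (hB : 0 ≤ B) (hs0 : 0 < s) (hs : s < 1) (hp0 : 0 < p) (hp : p < 2)
    (h1 : ∀ u v, u ≤ v → ∀ t : ℝ, 0 < t → t ≤ 1 → ENNReal.ofReal t ≤ ν (Icc u v) →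
      Real.exp (-(B * t ^ (-s))) ≤ v - u)
    (h2 : ∀ u v, u ≤ v → ∀ t : ℝ, 0 < t → t ≤ 1 → ENNReal.ofReal t ≤ ν (Icc u v) →
      Real.exp (-(B * t ^ (-s))) ≤ h v - h u)
    (hfr : ∃ᶠ t in 𝓝[>] (0:ℝ), ∀ u v, u ≤ v → ENNReal.ofReal t ≤ ν (Icc u v) →
      Real.exp (-(B * Real.log (1 / t) ^ p)) ≤ v - u ∧
      Real.exp (-(B * Real.log (1 / t) ^ p)) ≤ h v - h u)
    {c d : ℝ} (hpos : ν (Icc c d) ≠ 0) :
    ∃ a b : ℝ, c ≤ a ∧ a < b ∧ b ≤ d ∧ LoopPoint h a ∧ LoopPoint h b := by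
  obtain ⟨m, hm⟩ : ∃ m : ℝ, m = (ν (Icc c d)).toReal := ⟨_, rfl⟩
  have hmt : ν (Icc c d) ≠ ∞ := measure_ne_top _ _
  have hm0 : 0 < m := by
    rw [hm]
    exact ENNReal.toReal_pos hpos hmt
  have hmE : ENNReal.ofReal m = ν (Icc c d) := by
    rw [hm]
    exact ENNReal.ofReal_toReal hmt
  have hm1 : m ≤ 1 := by
    rw [hm]
    exact ENNReal.toReal_le_of_le_ofReal (by norm_num) (by rw [ENNReal.ofReal_one]; exact prob_le_one)
  have hprob : IsProbabilityMeasure (ProbabilityTheory.cond ν (Icc c d)) :=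
    ProbabilityTheory.cond_isProbabilityMeasure hpos
  have hkey : ∀ (t : ℝ) (u v : ℝ), ENNReal.ofReal t ≤ ProbabilityTheory.cond ν (Icc c d) (Icc u v) →
      ENNReal.ofReal (m * t) ≤ ν (Icc u v) := by
    intro t u v ht
    rw [ProbabilityTheory.cond_apply measurableSet_Icc] at ht
    rw [ENNReal.ofReal_mul hm0.le, hmE]
    calc ν (Icc c d) * ENNReal.ofReal t
        ≤ ν (Icc c d) * ((ν (Icc c d))⁻¹ * ν (Icc c d ∩ Icc u v)) := by gcongr
      _ = ν (Icc c d ∩ Icc u v) := by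
          rw [← mul_assoc, ENNReal.mul_inv_cancel hpos hmt, one_mul]
      _ ≤ ν (Icc u v) := measure_mono inter_subset_right
  have hnull : ProbabilityTheory.cond ν (Icc c d) (Icc c d)ᶜ = 0 := by
    rw [ProbabilityTheory.cond_apply measurableSet_Icc, inter_compl_self, measure_empty, mul_zero]
  have hms : 0 ≤ m ^ (-s) := Real.rpow_nonneg hm0.le _
  have hweak : ∀ t : ℝ, 0 < t →
      Real.exp (-((B * m ^ (-s) + 4 * B) * t ^ (-s))) ≤ Real.exp (-(B * (m * t) ^ (-s))) := by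
    intro t ht
    apply Real.exp_le_exp.mpr
    apply neg_le_neg
    rw [Real.mul_rpow hm0.le ht.le]
    have h3 : 0 ≤ t ^ (-s) := Real.rpow_nonneg ht.le _
    have h4 : 0 ≤ 4 * B * t ^ (-s) := by positivity
    linarith
  refine exists_loopPointsQ h hh (ProbabilityTheory.cond ν (Icc c d)) (B * m ^ (-s) + 4 * B) s p
    (by positivity) hs0 hs hp0 hp ?_ ?_ ?_ hnull
  · intro u v huv t ht ht1 hle
    exact (hweak t ht).trans (h1 u v huv (m * t) (by positivity) (by nlinarith) (hkey t u v hle))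
  · intro u v huv t ht ht1 hle
    exact (hweak t ht).trans (h2 u v huv (m * t) (by positivity) (by nlinarith) (hkey t u v hle))
  · have ht : Tendsto (fun t : ℝ => t / m) (𝓝[>] 0) (𝓝[>] 0) := by
      rw [tendsto_nhdsWithin_iff]
      constructor
      · have h4 : Tendsto (fun t : ℝ => t / m) (𝓝 0) (𝓝 (0 / m)) := tendsto_id.div_const m
        rw [zero_div] at h4
        exact h4.mono_left nhdsWithin_le_nhds
      · filter_upwards [self_mem_nhdsWithin] with t ht
        exact div_pos ht hm0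
    refine ht.frequently ?_
    have hev : ∀ᶠ t in 𝓝[>] (0:ℝ), 0 < t ∧ t < m ^ 2 := by
      filter_upwards [Ioo_mem_nhdsGT (show (0:ℝ) < m ^ 2 by positivity)] with t ht
      exact ht
    refine (hfr.and_eventually hev).mono ?_
    rintro t ⟨hP, ht0, htm⟩ u v huv hle
    have h3 := hkey (t / m) u v hle
    rw [mul_div_cancel₀ t hm0.ne'] at h3
    obtain ⟨h4, h5⟩ := hP u v huv h3
    have hl1 : Real.log (1 / (t / m)) = Real.log m - Real.log t := by
      rw [one_div, inv_div, Real.log_div hm0.ne' ht0.ne']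
    have hl2 : Real.log (1 / t) = -Real.log t := by rw [one_div, Real.log_inv]
    have hl3 : Real.log t ≤ 2 * Real.log m := by
      have := Real.log_le_log ht0 htm.le
      rw [Real.log_pow] at this
      exact_mod_cast this
    have hm2 : Real.log m ≤ 0 := Real.log_nonpos hm0.le hm1
    have hl4 : Real.log (1 / t) ≤ 2 * Real.log (1 / (t / m)) := by
      rw [hl1, hl2]
      linarith
    have hl0 : 0 ≤ Real.log (1 / t) := by
      rw [hl2]
      linarith
    have hl5 : 0 ≤ Real.log (1 / (t / m)) := by linarith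
    have h2p : (2 : ℝ) ^ p ≤ 4 := by
      calc (2 : ℝ) ^ p ≤ (2 : ℝ) ^ (2 : ℝ) :=
            Real.rpow_le_rpow_of_exponent_le (by norm_num) hp.le
        _ = 4 := by norm_num
    have hl6 : Real.log (1 / t) ^ p ≤ 4 * Real.log (1 / (t / m)) ^ p := by
      calc Real.log (1 / t) ^ p ≤ (2 * Real.log (1 / (t / m))) ^ p :=
            Real.rpow_le_rpow hl0 hl4 hp0.le
        _ = 2 ^ p * Real.log (1 / (t / m)) ^ p := Real.mul_rpow (by norm_num) hl5
        _ ≤ 4 * Real.log (1 / (t / m)) ^ p := by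
            have := Real.rpow_nonneg hl5 p
            gcongr
    have hfin : Real.exp (-((B * m ^ (-s) + 4 * B) * Real.log (1 / (t / m)) ^ p)) ≤
        Real.exp (-(B * Real.log (1 / t) ^ p)) := by
      apply Real.exp_le_exp.mpr
      apply neg_le_neg
      have h6 := mul_le_mul_of_nonneg_left hl6 hB
      have h7 := Real.rpow_nonneg hl5 p
      have h8 : 0 ≤ B * m ^ (-s) * Real.log (1 / (t / m)) ^ p := by positivity
      linarith
    exact ⟨hfin.trans h4, hfin.trans h5⟩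

end Pool.Agent.H.MP_4bdd60_an
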