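import Mathlib
import Pool.Agent.H.MP_4bdd60_an.Fin

/-!
# MP_4bdd60_an: a removable arc between two loop points can be deleted
-/

set_option autoImplicit false

open Set Filter Topology Metric MeasureTheory
open scoped ENNReal Real

namespace Pool.Agent.H.MP_4bdd60_an

theorem Mk_arcI {φ χ : ℂ → ℂ} {y1 y2 : ℝ} {I J : Set ℂ} {g : ℂ → ℂ}
    (hM : Marked φ χ (cay y1) (cay y2) I J g) (hJ1 : ∀ s, s < y1 → cay s ∈ J)
    (hJ2 : ∀ s, y2 < s → cay s ∈ J) (h12 : y1 < y2) :
    arc φ I (cay y1) (cay y2) ⊆ φ '' (cay '' Icc y1 y2) := by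
  have h1J : (1 : ℂ) ∈ J := by
    have hcl : (1 : ℂ) ∈ closure J := by
      refine mem_closure_of_tendsto S6_tendsto_atBot ?_
      filter_upwards [eventually_lt_atBot y1] with s hs
      exact hJ1 s hs
    have h2 : (1 : ℂ) ∈ J ∪ {cay y1, cay y2} :=
      hM.clJ.closure_subset_iff.mpr subset_union_left hcl
    rcases h2 with h2 | h2 | h2
    · exact h2
    · exact absurd h2.symm (S6_cay_ne_one y1)
    · exact absurd (mem_singleton_iff.mp h2).symm (S6_cay_ne_one y2)
  rintro _ ⟨z, hz, rfl⟩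
  refine mem_image_of_mem _ ?_
  rcases hz with hz | hz | hz
  · have hzs : z ∈ sphere (0 : ℂ) 1 := by
      rw [← hM.union]
      exact Or.inl (Or.inl hz)
    have hz1 : z ≠ 1 := by
      rintro rfl
      exact Set.disjoint_left.mp hM.IJ hz h1J
    obtain ⟨s, rfl, _⟩ := cay_surj (by simpa using hzs) hz1
    refine mem_image_of_mem _ ⟨?_, ?_⟩
    · by_contra hcon
      exact Set.disjoint_left.mp hM.IJ hz (hJ1 s (not_le.mp hcon))
    · by_contra hcon
      exact Set.disjoint_left.mp hM.IJ hz (hJ2 s (not_le.mp hcon))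
  · rw [hz]
    exact mem_image_of_mem _ ⟨le_rfl, h12.le⟩
  · rw [mem_singleton_iff] at hz
    rw [hz]
    exact mem_image_of_mem _ ⟨h12.le, le_rfl⟩

/-- Two loop points: the arc between them is not removable, or every map which is conformal off the curve
is holomorphic across the arc. -/
theorem of_loopPointsL {φ χ : ℂ → ℂ} (hC : Curve φ χ) {k0 : ℝ → ℝ} (hk : Continuous k0)
    (hw : ∀ s : ℝ, χ (cay (k0 s)) = φ (cay s)) (h1 : χ 1 = φ 1)
    {κ : ℝ} (hκ : κ = 1 ∨ κ = -1) (hmono : StrictMono (fun s => κ * k0 s)) {y1 y2 : ℝ} (h12 : y1 < y2)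
    (hl1 : LoopPoint (fun s => κ * k0 s) y1) (hl2 : LoopPoint (fun s => κ * k0 s) y2)
    (f : ℂ ≃ₜ ℂ) (hf : DifferentiableOn ℂ f (φ '' sphere 0 1)ᶜ) :
    (∃ K : Set ℂ, K ⊆ φ '' (cay '' Icc y1 y2) ∧ IsClosed K ∧
      ∃ g : ℂ ≃ₜ ℂ, DifferentiableOn ℂ g Kᶜ ∧ ¬ Differentiable ℂ g) ∨
    ∀ x, y1 < x → x < y2 → DifferentiableAt ℂ f (φ (cay x)) := by
  obtain ⟨I, J, g, hM, hg, hI, hJ1, hJ2⟩ := exists_marked hC hw h1 h12
  have hκ2 : κ * κ = 1 := by rcases hκ with rfl | rfl <;> norm_num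
  have hc : Chart g (fun s => κ * k0 s) κ := by
    refine ⟨hmono, continuous_const.mul hk, hκ, fun x => ?_⟩
    rw [hg, ← mul_assoc, hκ2, one_mul]
  have hs1 : Sep (cay y1) (cay y2) I J y1 := by
    refine ⟨y2 - y1, by linarith, ?_, ?_⟩
    · intro u v _ hu hv hv'
      exact Or.inl ⟨hJ1 u hu, hI v hv (by linarith)⟩
    · intro x _ hx hne
      exact ⟨fun e => hne (cay_injective e), fun e => by have := cay_injective e; linarith⟩
  have hs2 : Sep (cay y1) (cay y2) I J y2 := by
    refine ⟨y2 - y1, by linarith, ?_, ?_⟩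
    · intro u v hu hu' hv _
      exact Or.inr ⟨hI u (by linarith) hu', hJ2 v hv⟩
    · intro x hx _ hne
      exact ⟨fun e => by have := cay_injective e; linarith, fun e => hne (cay_injective e)⟩
  have hKc := isCompact_arcI hM
  have hLc := isCompact_arcJ hM
  have hun := arc_union hM
  obtain ⟨F, hF1, hF2⟩ := core (f := f) hM hc rfl rfl hs1 hs2 hl1 hl2 (by rw [hun]; exact hf)
  by_cases hFd : Differentiable ℂ F
  · right
    intro x hx1 hx2
    have hd := endgame f F hLc.isClosed hFd hF2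
    have hnot : φ (cay x) ∉ arc φ J (cay y1) (cay y2) := by
      rintro ⟨z, hz, he⟩
      have hzs : z ∈ sphere (0 : ℂ) 1 := by
        rw [← hM.union]
        rcases hz with hz | hz
        · exact Or.inl (Or.inr hz)
        · exact Or.inr hz
      have hzx : z = cay x := hC.φ_inj (sphere_subset_closedBall hzs)
        (sphere_subset_closedBall (cay_mem x)) he
      rw [hzx] at hz
      rcases hz with hz | hz | hz
      · exact Set.disjoint_left.mp hM.IJ (hI x hx1 hx2) hz
      · have := cay_injective hz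
        linarith
      · have := cay_injective (mem_singleton_iff.mp hz)
        linarith
    exact hd.differentiableAt (hLc.isClosed.isOpen_compl.mem_nhds hnot)
  · left
    exact ⟨arc φ I (cay y1) (cay y2), Mk_arcI hM hJ1 hJ2 h12, hKc.isClosed, F, hF1, hFd⟩

end Pool.Agent.H.MP_4bdd60_an
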