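import Mathlib
import Pool.Agent.H.MP_4bdd60_an.W.Mk

/-!
# MP_4bdd60_an: two loop points and a closed subset of the curve
-/

set_option autoImplicit false

open Set Filter Topology Metric MeasureTheory
open scoped ENNReal Real

namespace Pool.Agent.H.MP_4bdd60_an

/-- Two loop points and a closed subset `E` of the curve: the part of `E` between them is not removable, or every
map which is conformal off `E` is holomorphic across the arc. -/
theorem of_loopPointsE {φ χ : ℂ → ℂ} (hC : Curve φ χ) {k0 : ℝ → ℝ} (hk : Continuous k0)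
    (hw : ∀ s : ℝ, χ (cay (k0 s)) = φ (cay s)) (h1 : χ 1 = φ 1)
    {κ : ℝ} (hκ : κ = 1 ∨ κ = -1) (hmono : StrictMono (fun s => κ * k0 s)) {y1 y2 : ℝ} (h12 : y1 < y2)
    (hl1 : LoopPoint (fun s => κ * k0 s) y1) (hl2 : LoopPoint (fun s => κ * k0 s) y2)
    {E : Set ℂ} (hE : IsClosed E) (hEs : E ⊆ φ '' sphere 0 1)
    (f : ℂ ≃ₜ ℂ) (hf : DifferentiableOn ℂ f Eᶜ) :
    (∃ g : ℂ ≃ₜ ℂ, DifferentiableOn ℂ g (E ∩ φ '' (cay '' Icc y1 y2))ᶜ ∧ ¬ Differentiable ℂ g) ∨
    ∀ x, y1 < x → x < y2 → DifferentiableAt ℂ f (φ (cay x)) := by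
  obtain ⟨I, J, g, hM, hg, hI, hJ1, hJ2⟩ := exists_marked hC hw h1 h12
  have hκ2 : κ * κ = 1 := by rcases hκ with rfl | rfl <;> norm_num
  have hc : Chart g (fun s => κ * k0 s) κ := by
    refine ⟨hmono, continuous_const.mul hk, hκ, fun x => ?_⟩
    rw [hg, ← mul_assoc, hκ2, one_mul]
  have hs1 : Sep (cay y1) (cay y2) I J y1 := by
    refine ⟨y2 - y1, by linarith, ?_, ?_⟩
    · intro u v _ hu hv hv'
      exact Or.inl ⟨hJ1 u hu, hI v hv (by linarith)⟩
    · intro x _ hx hne
      exact ⟨fun e => hne (cay_injective e), fun e => by have := cay_injective e; linarith⟩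
  have hs2 : Sep (cay y1) (cay y2) I J y2 := by
    refine ⟨y2 - y1, by linarith, ?_, ?_⟩
    · intro u v hu hu' hv _
      exact Or.inr ⟨hI u (by linarith) hu', hJ2 v hv⟩
    · intro x hx _ hne
      exact ⟨fun e => by have := cay_injective e; linarith, fun e => hne (cay_injective e)⟩
  have hKc := isCompact_arcI hM
  have hLc := isCompact_arcJ hM
  have hun := arc_union hM
  obtain ⟨F, hF1, hF2⟩ := core (f := f) hM hc rfl rfl hs1 hs2 hl1 hl2 (by
    rw [hun]
    exact hf.mono (compl_subset_compl.mpr hEs))
  by_cases hFd : Differentiable ℂ F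
  · right
    intro x hx1 hx2
    have hd := endgame f F hLc.isClosed hFd hF2
    have hnot : φ (cay x) ∉ arc φ J (cay y1) (cay y2) := by
      rintro ⟨z, hz, he⟩
      have hzs : z ∈ sphere (0 : ℂ) 1 := by
        rw [← hM.union]
        rcases hz with hz | hz
        · exact Or.inl (Or.inr hz)
        · exact Or.inr hz
      have hzx : z = cay x := hC.φ_inj (sphere_subset_closedBall hzs)
        (sphere_subset_closedBall (cay_mem x)) he
      rw [hzx] at hz
      rcases hz with hz | hz | hz
      · exact Set.disjoint_left.mp hM.IJ (hI x hx1 hx2) hz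
      · have := cay_injective hz
        linarith
      · have := cay_injective (mem_singleton_iff.mp hz)
        linarith
    exact hd.differentiableAt (hLc.isClosed.isOpen_compl.mem_nhds hnot)
  · left
    refine ⟨F, ?_, hFd⟩
    have hsubI := Mk_arcI hM hJ1 hJ2 h12
    have hcard : IsClosed (E ∩ φ '' (cay '' Icc y1 y2)) := by
      refine hE.inter ?_
      have hPc : Continuous (fun s : ℝ => φ (cay s)) := hC.φ_cont.comp_continuous cay_continuous
        (fun s => sphere_subset_closedBall (cay_mem s))
      rw [image_image]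
      exact (isCompact_Icc.image hPc).isClosed
    -- off the two marked points
    have hoff : DifferentiableOn ℂ F
        (((E ∩ φ '' (cay '' Icc y1 y2))ᶜ \ {φ (cay y1)}) \ {φ (cay y2)}) := by
      intro z hz
      obtain ⟨⟨hz1, hz2⟩, hz3⟩ := hz
      by_cases hzI : z ∈ arc φ I (cay y1) (cay y2)
      · have hzE : z ∉ E := fun h => hz1 ⟨h, hsubI hzI⟩
        have hzJ : z ∉ arc φ J (cay y1) (cay y2) := by
          rintro ⟨w, hw', rfl⟩
          obtain ⟨v, hv, hvw⟩ := hzI
          have hws : w ∈ sphere (0 : ℂ) 1 := by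
            rw [← hM.union]
            rcases hw' with hw' | hw'
            · exact Or.inl (Or.inr hw')
            · exact Or.inr hw'
          have hvs : v ∈ sphere (0 : ℂ) 1 := by
            rw [← hM.union]
            rcases hv with hv | hv
            · exact Or.inl (Or.inl hv)
            · exact Or.inr hv
          have hvw' : v = w := hC.φ_inj (sphere_subset_closedBall hvs)
            (sphere_subset_closedBall hws) hvw
          rw [hvw'] at hv
          rcases hw' with hw' | hw' | hw'
          · rcases hv with hv | hv | hv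
            · exact Set.disjoint_left.mp hM.IJ hv hw'
            · exact hz2 (by rw [hv]; rfl)
            · exact hz3 (by rw [mem_singleton_iff.mp hv]; rfl)
          · exact hz2 (by rw [hw']; rfl)
          · exact hz3 (by rw [mem_singleton_iff.mp hw']; rfl)
        have hopen : IsOpen (f '' (arc φ J (cay y1) (cay y2))ᶜ) :=
          f.isOpenMap _ hLc.isClosed.isOpen_compl
        have hd1 : DifferentiableAt ℂ f z := hf.differentiableAt (hE.isOpen_compl.mem_nhds hzE)
        have hd2 : DifferentiableAt ℂ (fun w => F (f.symm w)) (f z) :=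
          hF2.differentiableAt (hopen.mem_nhds (mem_image_of_mem _ hzJ))
        have hd3 : DifferentiableAt ℂ ((fun w => F (f.symm w)) ∘ f) z :=
          DifferentiableAt.comp z hd2 hd1
        have he : ((fun w => F (f.symm w)) ∘ f) = F := by
          ext w
          simp only [Function.comp_apply, Homeomorph.symm_apply_apply]
        rw [he] at hd3
        exact hd3.differentiableWithinAt
      · exact (hF1.differentiableAt (hKc.isClosed.isOpen_compl.mem_nhds hzI)).differentiableWithinAt
    have hadd : ∀ (S : Set ℂ) (a : ℂ), IsOpen S → DifferentiableOn ℂ F (S \ {a}) →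
        DifferentiableOn ℂ F S := by
      intro S a hS hd
      by_cases ha : a ∈ S
      · exact (Complex.differentiableOn_compl_singleton_and_continuousAt_iff
          (hS.mem_nhds ha)).mp ⟨hd, F.continuous.continuousAt⟩
      · rwa [sdiff_singleton_eq_self ha] at hd
    exact hadd _ _ hcard.isOpen_compl (hadd _ _ (hcard.isOpen_compl.sdiff isClosed_singleton) hoff)

end Pool.Agent.H.MP_4bdd60_an
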