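import Mathlib
import Pool.Agent.H.MP_4bdd60_an.W.Fin6

/-!
# MP_4bdd60_an: countable unions of removable closed subsets of the curve
-/

set_option autoImplicit false

open Set Filter Topology Metric MeasureTheory
open scoped ENNReal Real

namespace Pool.Agent.H.MP_4bdd60_an

/-- a closed set which is covered, in an open set `U`, by countably many closed sets: near some point one
of them is enough -/
theorem Bai_pick {S U : Set ℂ} (hS : IsClosed S) (hU : IsOpen U) (hne : (S ∩ U).Nonempty)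
    (A : ℕ → Set ℂ) (hA : ∀ n, IsClosed (A n)) (hcov : S ∩ U ⊆ ⋃ n, A n) :
    ∃ q ∈ S ∩ U, ∃ (n : ℕ) (r : ℝ), 0 < r ∧ S ∩ ball q r ⊆ A n := by
  have hc : CompleteSpace S := hS.completeSpace_coe
  have hB : BaireSpace S := inferInstance
  obtain ⟨f, hf⟩ : ∃ f : Option ℕ → Set S, f = fun o => match o with
    | none => {x : S | (x : ℂ) ∈ Uᶜ}
    | some n => {x : S | (x : ℂ) ∈ A n} := ⟨_, rfl⟩
  have hfc : ∀ o, IsClosed (f o) := by
    intro o
    rw [hf]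
    cases o with
    | none => exact hU.isClosed_compl.preimage continuous_subtype_val
    | some n => exact (hA n).preimage continuous_subtype_val
  have hfu : ⋃ o, f o = univ := by
    rw [eq_univ_iff_forall]
    intro x
    rw [mem_iUnion]
    by_cases hx : (x : ℂ) ∈ U
    · obtain ⟨n, hn⟩ := mem_iUnion.mp (hcov ⟨x.2, hx⟩)
      exact ⟨some n, by rw [hf]; exact hn⟩
    · exact ⟨none, by rw [hf]; exact hx⟩
  have hd := dense_iUnion_interior_of_closed hfc hfu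
  have hUo : IsOpen {x : S | (x : ℂ) ∈ U} := hU.preimage continuous_subtype_val
  obtain ⟨z, hzS, hzU⟩ := hne
  obtain ⟨x, hxU, hxi⟩ := hd.inter_open_nonempty _ hUo ⟨⟨z, hzS⟩, hzU⟩
  obtain ⟨o, ho⟩ := mem_iUnion.mp hxi
  cases o with
  | none =>
    have h1 := interior_subset ho
    rw [hf] at h1
    exact absurd hxU h1
  | some n =>
    obtain ⟨V, hV1, hV2, hV3⟩ := mem_interior.mp ho
    obtain ⟨r, hr, hball⟩ := Metric.isOpen_iff.mp hV2 x hV3
    refine ⟨x, ⟨x.2, hxU⟩, n, r, hr, ?_⟩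
    rintro w ⟨hwS, hwb⟩
    have h2 : (⟨w, hwS⟩ : S) ∈ ball x r := by
      rw [mem_ball, Subtype.dist_eq]
      exact hwb
    have h3 := hV1 (hball h2)
    rw [hf] at h3
    exact h3

theorem baire_curve {φ χ : ℂ → ℂ} (hC : Curve φ χ) {u0 : ℂ} {k0 : ℝ → ℝ} (hu : ‖u0‖ = 1)
    (hk : Continuous k0)
    (hb : Function.Bijective k0) (hw : ∀ s : ℝ, χ (u0 * cay (k0 s)) = φ (cay s)) (h1 : χ u0 = φ 1)
    (nu : Measure ℝ) [IsProbabilityMeasure nu] (B s p : ℝ) (hB : 0 ≤ B) (hs0 : 0 < s) (hs : s < 1)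
    (hp0 : 0 < p) (hp : p < 2)
    (n1 : ∀ u v, u ≤ v → ∀ t : ℝ, 0 < t → t ≤ 1 → ENNReal.ofReal t ≤ nu (Icc u v) →
      Real.exp (-(B * t ^ (-s))) ≤ v - u)
    (n2 : ∀ u v, u ≤ v → ∀ t : ℝ, 0 < t → t ≤ 1 → ENNReal.ofReal t ≤ nu (Icc u v) →
      Real.exp (-(B * t ^ (-s))) ≤ |k0 v - k0 u|)
    (n3 : ∃ᶠ t in 𝓝[>] (0:ℝ), ∀ u v, u ≤ v → ENNReal.ofReal t ≤ nu (Icc u v) →
      Real.exp (-(B * Real.log (1 / t) ^ p)) ≤ v - u ∧
      Real.exp (-(B * Real.log (1 / t) ^ p)) ≤ |k0 v - k0 u|)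
    {U : Set ℂ} (hU : IsOpen U)
    (n4 : ∀ c d : ℝ, c < d → (∀ x ∈ Icc c d, φ (cay x) ∈ U) → nu (Icc c d) ≠ 0)
    {E : Set ℂ} (hE : IsClosed E) (hEs : E ⊆ φ '' sphere 0 1)
    (A : ℕ → Set ℂ) (hA : ∀ n, IsClosed (A n)) (hcov : E ∩ U ⊆ ⋃ n, A n)
    (f : ℂ ≃ₜ ℂ) (hf : DifferentiableOn ℂ f Eᶜ) (hfn : ¬ Differentiable ℂ f) :
    (∃ n, ∃ g : ℂ ≃ₜ ℂ, DifferentiableOn ℂ g (E ∩ A n)ᶜ ∧ ¬ Differentiable ℂ g) ∨
    ∃ g : ℂ ≃ₜ ℂ, DifferentiableOn ℂ g (E \ U)ᶜ ∧ ¬ Differentiable ℂ g := by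
  by_cases hrem : ∃ n, ∃ g : ℂ ≃ₜ ℂ, DifferentiableOn ℂ g (E ∩ A n)ᶜ ∧ ¬ Differentiable ℂ g
  · exact Or.inl hrem
  right
  refine ⟨f, ?_, hfn⟩
  -- the set where `f` is not holomorphic
  obtain ⟨S, hSd⟩ : ∃ S : Set ℂ, S = (interior {z | DifferentiableAt ℂ f z})ᶜ := ⟨_, rfl⟩
  have hSc : IsClosed S := by
    rw [hSd]
    exact isOpen_interior.isClosed_compl
  have hfS : DifferentiableOn ℂ f Sᶜ := by
    intro z hz
    rw [hSd, compl_compl] at hz
    have h2 : z ∈ {z | DifferentiableAt ℂ f z} := interior_subset hz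
    exact DifferentiableAt.differentiableWithinAt h2
  have hSE : S ⊆ E := by
    intro z hz
    by_contra hno
    rw [hSd] at hz
    apply hz
    rw [mem_interior]
    refine ⟨Eᶜ, ?_, hE.isOpen_compl, hno⟩
    intro w hw'
    exact hf.differentiableAt (hE.isOpen_compl.mem_nhds hw')
  have hempty : ¬ (S ∩ U).Nonempty := by
    intro hne
    obtain ⟨q, ⟨hqS, hqU⟩, n, r, hr, hqr⟩ := Bai_pick hSc hU hne A hA
      ((inter_subset_inter_left _ hSE).trans hcov)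
    obtain ⟨V, hV⟩ : ∃ V : Set ℂ, V = U ∩ ball q r := ⟨_, rfl⟩
    have hVo : IsOpen V := by
      rw [hV]
      exact hU.inter isOpen_ball
    have hqV : q ∈ V := by
      rw [hV]
      exact ⟨hqU, mem_ball_self hr⟩
    have hfin := closed_curveF hC hu hk hb hw h1 nu B s p hB hs0 hs hp0 hp n1 n2 n3 hVo
      (fun c d hcd hcV => n4 c d hcd fun x hx => by
        have := hcV x hx
        rw [hV] at this
        exact this.1) hSc (hSE.trans hEs) f hfS (by
        rintro x ⟨hxS, hxV⟩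
        obtain ⟨ε, hε, hball⟩ := Metric.isOpen_iff.mp hVo x hxV
        refine ⟨ε / 2, by linarith, ?_⟩
        intro g hg
        by_contra hgn
        apply hrem
        refine ⟨n, g, hg.mono (compl_subset_compl.mpr ?_), hgn⟩
        rintro w ⟨hwS, hwb⟩
        have hwV : w ∈ V := hball (by
          rw [mem_closedBall] at hwb
          rw [mem_ball]
          linarith)
        refine ⟨hSE hwS, hqr ⟨hwS, ?_⟩⟩
        rw [hV] at hwV
        exact hwV.2)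
    have hnot : q ∉ S := by
      rw [hSd, mem_compl_iff, not_not, mem_interior]
      refine ⟨V, ?_, hVo, hqV⟩
      intro w hwV
      have hopen : IsOpen (S \ V)ᶜ := (hSc.sdiff hVo).isOpen_compl
      exact hfin.differentiableAt (hopen.mem_nhds fun h => h.2 hwV)
    exact hnot hqS
  intro z hz
  have hzS : z ∉ S := by
    intro h
    by_cases hzU : z ∈ U
    · exact hempty ⟨z, h, hzU⟩
    · exact hz ⟨hSE h, hzU⟩
  exact (hfS.differentiableAt (hSc.isOpen_compl.mem_nhds hzS)).differentiableWithinAt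

end Pool.Agent.H.MP_4bdd60_an
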