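import Mathlib
import Pool.Agent.H.MP_4bdd60_an.U.Bri
import Pool.Agent.H.MP_4bdd60_an.V.Bri2
import Pool.Agent.H.MP_4bdd60_an.S6

/-!
# MP_4bdd60_an: the measure on the line, with its formula
-/

set_option autoImplicit false

open Set Filter Topology Metric MeasureTheory
open scoped ENNReal Real

namespace Pool.Agent.H.MP_4bdd60_an

theorem Brg_prob {φ : ℂ → ℂ} (hφc : ContinuousOn φ (closedBall 0 1))
    (hφi : InjOn φ (closedBall 0 1)) (ν : Measure ℂ) [IsProbabilityMeasure ν]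
    (hν : ν (φ '' sphere 0 1)ᶜ = 0) (hat : ∀ z ∈ sphere (0 : ℂ) 1, ν {φ z} = 0) :
    IsProbabilityMeasure (Measure.comap (fun s : ℝ => φ (cay s)) ν) ∧
      ∀ S : Set ℝ, Measure.comap (fun s : ℝ => φ (cay s)) ν S = ν ((fun s : ℝ => φ (cay s)) '' S) := by
  have hsb : ∀ s : ℝ, cay s ∈ closedBall (0 : ℂ) 1 := fun s => sphere_subset_closedBall (cay_mem s)
  set P : ℝ → ℂ := fun s => φ (cay s) with hP
  have hPc : Continuous P := hφc.comp_continuous cay_continuous hsb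
  have hPi : Function.Injective P := by
    intro s t hst
    exact cay_injective (hφi (hsb s) (hsb t) hst)
  have hPe : MeasurableEmbedding P := hPc.measurableEmbedding hPi
  have hap : ∀ S : Set ℝ, Measure.comap P ν S = ν (P '' S) := fun S => hPe.comap_apply ν S
  have hone : (1 : ℂ) ∈ sphere (0 : ℂ) 1 := by simp
  refine ⟨?_, hap⟩
  constructor
  rw [hap, image_univ]
  have hcov : (univ : Set ℂ) ⊆ range P ∪ ((φ '' sphere 0 1)ᶜ ∪ {φ 1}) := by
    intro w _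
    by_cases hw1 : w ∈ φ '' sphere 0 1
    · obtain ⟨z, hz, rfl⟩ := hw1
      by_cases hz1 : z = 1
      · right; right; rw [hz1]; rfl
      · left
        obtain ⟨s, hs, _⟩ := cay_surj (z := z) (by simpa using hz) hz1
        exact ⟨s, by rw [hP]; simp only; rw [hs]⟩
    · right; left; exact hw1
  apply le_antisymm prob_le_one
  calc (1 : ℝ≥0∞) = ν univ := measure_univ.symm
    _ ≤ ν (range P ∪ ((φ '' sphere 0 1)ᶜ ∪ {φ 1})) := measure_mono hcov
    _ ≤ ν (range P) + (ν (φ '' sphere 0 1)ᶜ + ν {φ 1}) :=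
        (measure_union_le _ _).trans (add_le_add le_rfl (measure_union_le _ _))
    _ = ν (range P) := by rw [hν, hat 1 hone, add_zero, add_zero]

/-- the geometric part of the bridge for the explicit measure -/
theorem Brg_geo {φ ψ : ℂ → ℂ} (ν : Measure ℂ) (ν' : Measure ℝ)
    (hap : ∀ S : Set ℝ, ν' S = ν ((fun s : ℝ => φ (cay s)) '' S))
    {u0 : ℂ} {k0 : ℝ → ℝ} (hu0 : ‖u0‖ = 1) (hk : Continuous k0) (hki : Function.Injective k0)
    (hw : ∀ s : ℝ, ψ (u0 * cay (k0 s))⁻¹ = φ (cay s)) :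
      (∀ u v, u < v → ν' (Icc u v) ≤ ν (φ '' (sphere 0 1 ∩ closedBall (cay u) (2 * (v - u))))) ∧
      (∀ u v, u < v → (u0 * cay (k0 u))⁻¹ ∈ sphere (0 : ℂ) 1 ∧ ν' (Icc u v) ≤
        ν (ψ '' (sphere 0 1 ∩ closedBall (u0 * cay (k0 u))⁻¹ (2 * |k0 v - k0 u|)))) := by
  refine ⟨?_, ?_⟩
  · intro u v h
    rw [hap]
    have h3 : (fun s : ℝ => φ (cay s)) '' Icc u v ⊆
        φ '' (sphere 0 1 ∩ closedBall (cay u) (2 * (v - u))) := by
      rintro _ ⟨s, hs, rfl⟩
      refine ⟨cay s, ⟨cay_mem s, ?_⟩, rfl⟩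
      rw [mem_closedBall, dist_eq_norm]
      have h4 := cayc_lip (w := (s : ℂ)) (w' := (u : ℂ)) (by simp) (by simp)
      have h5 : ‖(s : ℂ) - (u : ℂ)‖ ≤ v - u := by
        rw [← Complex.ofReal_sub, Complex.norm_real, Real.norm_eq_abs,
          abs_of_nonneg (by linarith [hs.1])]
        linarith [hs.2]
      have h6 : ‖cay s - cay u‖ ≤ 2 * ‖(s : ℂ) - (u : ℂ)‖ := h4
      linarith
    exact measure_mono h3
  · intro u v h
    rw [hap]
    have hbd : ∀ s ∈ Icc u v, |k0 s - k0 u| ≤ |k0 v - k0 u| := by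
      intro s hs
      rcases hk.strictMono_of_inj hki with hm | hm
      · have a1 := hm.monotone hs.1
        have a2 := hm.monotone hs.2
        rw [abs_of_nonneg (by linarith), abs_of_nonneg (by linarith)]
        linarith
      · have a1 := hm.antitone hs.1
        have a2 := hm.antitone hs.2
        rw [abs_of_nonpos (by linarith), abs_of_nonpos (by linarith)]
        linarith
    have hnorm : ∀ s : ℝ, ‖u0 * cay (k0 s)‖ = 1 := by
      intro s
      rw [norm_mul, hu0, cay_norm, mul_one]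
    have hne : ∀ s : ℝ, u0 * cay (k0 s) ≠ 0 := by
      intro s h0
      have := hnorm s
      rw [h0, norm_zero] at this
      exact zero_ne_one this
    have hsph : ∀ s : ℝ, (u0 * cay (k0 s))⁻¹ ∈ sphere (0 : ℂ) 1 := by
      intro s
      rw [mem_sphere_zero_iff_norm, norm_inv, hnorm, inv_one]
    refine ⟨hsph u, measure_mono ?_⟩
    rintro _ ⟨s, hs, rfl⟩
    refine ⟨(u0 * cay (k0 s))⁻¹, ⟨hsph s, ?_⟩, hw s⟩
    rw [mem_closedBall, dist_eq_norm]
    have h4 := cayc_lip (w := (k0 s : ℂ)) (w' := (k0 u : ℂ)) (by simp) (by simp)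
    have h5 : ‖(k0 s : ℂ) - (k0 u : ℂ)‖ ≤ |k0 v - k0 u| := by
      rw [← Complex.ofReal_sub, Complex.norm_real, Real.norm_eq_abs]
      exact hbd s hs
    have h6 : ‖cay (k0 s) - cay (k0 u)‖ ≤ 2 * ‖(k0 s : ℂ) - (k0 u : ℂ)‖ := h4
    have h7 : ‖(u0 * cay (k0 s))⁻¹ - (u0 * cay (k0 u))⁻¹‖ = ‖cay (k0 s) - cay (k0 u)‖ := by
      rw [inv_sub_inv (hne s) (hne u), norm_div, norm_mul, hnorm, hnorm, mul_one, div_one,
        ← mul_sub, norm_mul, hu0, one_mul, norm_sub_rev]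
    rw [h7]
    linarith

/-- a neighbourhood on the circle is contained in the image of an interval -/
theorem Brg_nhd {c x d : ℝ} (h1 : c < x) (h2 : x < d) :
    ∃ r : ℝ, 0 < r ∧ sphere (0 : ℂ) 1 ∩ closedBall (cay x) r ⊆ cay '' Icc c d := by
  have hcl := S6_closed c d
  have hx : cay x ∈ (sphere (0 : ℂ) 1 \ cay '' Ioo c d)ᶜ := fun h => h.2 (mem_image_of_mem _ ⟨h1, h2⟩)
  obtain ⟨r, hr, hsub⟩ := Metric.isOpen_iff.mp hcl.isOpen_compl _ hx
  refine ⟨r / 2, by linarith, ?_⟩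
  rintro z ⟨hz1, hz2⟩
  have hz3 : z ∈ ball (cay x) r := by
    rw [mem_closedBall] at hz2
    rw [mem_ball]
    linarith
  have hz4 := hsub hz3
  by_contra hcon
  exact hz4 ⟨hz1, fun h => hcon (image_mono Ioo_subset_Icc_self h)⟩

theorem Brg_pos {φ : ℂ → ℂ} (ν : Measure ℂ) (ν' : Measure ℝ)
    (hap : ∀ S : Set ℝ, ν' S = ν ((fun s : ℝ => φ (cay s)) '' S)) {U : Set ℂ}
    (hsupp : ∀ z ∈ sphere (0 : ℂ) 1, φ z ∈ U → ∀ r : ℝ, 0 < r →
      0 < ν (φ '' (sphere 0 1 ∩ closedBall z r)))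
    {c d : ℝ} (hcd : c < d) (hcU : ∀ x ∈ Icc c d, φ (cay x) ∈ U) : ν' (Icc c d) ≠ 0 := by
  obtain ⟨r, hr, hsub⟩ := Brg_nhd (c := c) (x := (c + d) / 2) (d := d) (by linarith) (by linarith)
  have h1 := hsupp _ (cay_mem ((c + d) / 2)) (hcU _ ⟨by linarith, by linarith⟩) r hr
  have h2 : ν (φ '' (sphere 0 1 ∩ closedBall (cay ((c + d) / 2)) r)) ≤ ν' (Icc c d) := by
    rw [hap, ← image_image φ cay]
    exact measure_mono (image_mono hsub)
  exact (lt_of_lt_of_le h1 h2).ne'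

end Pool.Agent.H.MP_4bdd60_an
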