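import Mathlib
import Pool.Agent.H.MP_4bdd60_an.W.Brg

/-!
# MP_4bdd60_an: the bridge with the formula for the measure on the line
-/

set_option autoImplicit false

open Set Filter Topology Metric MeasureTheory
open scoped ENNReal Real

namespace Pool.Agent.H.MP_4bdd60_an

theorem bridgeL {φ ψ : ℂ → ℂ} (hφc : ContinuousOn φ (closedBall 0 1))
    (hφi : InjOn φ (closedBall 0 1)) (ν : Measure ℂ) [IsProbabilityMeasure ν]
    (hν : ν (φ '' sphere 0 1)ᶜ = 0) {C θ δ : ℝ} (hθ : 0 < θ) (hδ : 0 < δ)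
    (h1 : ∀ z ∈ sphere (0 : ℂ) 1, ∀ r : ℝ, 0 < r → r < 1 / 2 →
      ν (φ '' (sphere 0 1 ∩ closedBall z r)) ≤ ENNReal.ofReal (C / Real.log (1 / r) ^ (1 + δ)))
    (h2 : ∀ z ∈ sphere (0 : ℂ) 1, ∀ r : ℝ, 0 < r → r < 1 / 2 →
      ν (ψ '' (sphere 0 1 ∩ closedBall z r)) ≤ ENNReal.ofReal (C / Real.log (1 / r) ^ (1 + δ)))
    (h3 : ∃ᶠ r in 𝓝[>] (0:ℝ), ∀ z ∈ sphere (0 : ℂ) 1,
      ν (φ '' (sphere 0 1 ∩ closedBall z r)) ≤
        ENNReal.ofReal (C * Real.exp (-(Real.log (1 / r) ^ θ))) ∧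
      ν (ψ '' (sphere 0 1 ∩ closedBall z r)) ≤
        ENNReal.ofReal (C * Real.exp (-(Real.log (1 / r) ^ θ))))
    {u0 : ℂ} {k0 : ℝ → ℝ} (hu0 : ‖u0‖ = 1) (hk : Continuous k0) (hki : Function.Injective k0)
    (hw : ∀ s : ℝ, ψ (u0 * cay (k0 s))⁻¹ = φ (cay s)) :
    ∃ (ν' : Measure ℝ) (B s : ℝ), IsProbabilityMeasure ν' ∧
      (∀ S : Set ℝ, ν' S = ν ((fun s : ℝ => φ (cay s)) '' S)) ∧ 0 ≤ B ∧ 0 < s ∧ s < 1 ∧
      (∀ u v, u ≤ v → ∀ t : ℝ, 0 < t → t ≤ 1 → ENNReal.ofReal t ≤ ν' (Icc u v) →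
        Real.exp (-(B * t ^ (-s))) ≤ v - u) ∧
      (∀ u v, u ≤ v → ∀ t : ℝ, 0 < t → t ≤ 1 → ENNReal.ofReal t ≤ ν' (Icc u v) →
        Real.exp (-(B * t ^ (-s))) ≤ |k0 v - k0 u|) ∧
      ∃ᶠ t in 𝓝[>] (0:ℝ), ∀ u v, u ≤ v → ENNReal.ofReal t ≤ ν' (Icc u v) →
        Real.exp (-(B * Real.log (1 / t) ^ (1 / θ))) ≤ v - u ∧
        Real.exp (-(B * Real.log (1 / t) ^ (1 / θ))) ≤ |k0 v - k0 u| := by
  have hat : ∀ z ∈ sphere (0 : ℂ) 1, ν {φ z} = 0 := fun z hz =>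
    no_atomS hθ (h3.mono fun r hr z hz => (hr z hz).1) hz
  obtain ⟨hp, hap⟩ := Brg_prob hφc hφi ν hν hat
  obtain ⟨ν', hν'⟩ : ∃ ν' : Measure ℝ, ν' = Measure.comap (fun s : ℝ => φ (cay s)) ν := ⟨_, rfl⟩
  rw [← hν'] at hp hap
  obtain ⟨g1, g2⟩ := Brg_geo ν ν' hap hu0 hk hki hw
  have ha : ∀ u, ν' {u} = 0 := by
    intro u
    rw [hap, image_singleton]
    exact hat _ (cay_mem u)
  have hCs : 0 ≤ (max C 1) ^ (1 / (1 + δ)) :=
    Real.rpow_nonneg (le_trans zero_le_one (le_max_right _ _)) _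
  have h2θ : (0 : ℝ) ≤ 2 ^ (1 / θ) := by positivity
  have hne : ∀ u v : ℝ, u ≤ v → ∀ t : ℝ, 0 < t → ENNReal.ofReal t ≤ ν' (Icc u v) → u < v := by
    intro u v huv t ht h
    refine lt_of_le_of_ne huv ?_
    rintro rfl
    rw [Icc_self, ha u, nonpos_iff_eq_zero, ENNReal.ofReal_eq_zero] at h
    linarith
  have hkp : ∀ u v : ℝ, u < v → 0 < |k0 v - k0 u| := by
    intro u v h
    exact abs_pos.mpr (sub_ne_zero.mpr fun h0 => (ne_of_gt h) (hki h0))
  refine ⟨ν', (max C 1) ^ (1 / (1 + δ)) + 4 + 2 ^ (1 / θ), 1 / (1 + δ), hp, hap, by positivity,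
    by positivity, ?_, ?_, ?_, ?_⟩
  · rw [div_lt_one (by linarith)]
    linarith
  · intro u v huv t ht ht1 hm
    have huv' := hne u v huv t ht hm
    refine Bri_weak hδ ht ht1 (sub_pos.mpr huv') (fun h => ?_) (by linarith)
    exact hm.trans ((g1 u v huv').trans (h1 _ (cay_mem u) _ (by linarith) h))
  · intro u v huv t ht ht1 hm
    have huv' := hne u v huv t ht hm
    have hp := hkp u v huv'
    refine Bri_weak hδ ht ht1 hp (fun h => ?_) (by linarith)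
    exact hm.trans ((g2 u v huv').2.trans (h2 _ (g2 u v huv').1 _ (by linarith) h))
  · refine Bri_str (C := C) hθ h3 (B := (max C 1) ^ (1 / (1 + δ)) + 4 + 2 ^ (1 / θ))
      (by linarith) ?_
    intro r t hr ht ht1 hP hlt htr u v huv hm
    have huv' := hne u v huv t ht hm
    have hp := hkp u v huv'
    constructor
    · refine htr.trans ?_
      by_contra hcon
      have h5 : 2 * (v - u) ≤ r := by linarith [not_le.mp hcon]
      have h6 : ν' (Icc u v) ≤ ENNReal.ofReal (C * Real.exp (-(Real.log (1 / r) ^ θ))) := by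
        refine (g1 u v huv').trans (le_trans (measure_mono ?_) (hP _ (cay_mem u)).1)
        exact image_mono (inter_subset_inter_right _ (closedBall_subset_closedBall h5))
      exact absurd (hm.trans h6) (not_le.mpr hlt)
    · refine htr.trans ?_
      by_contra hcon
      have h5 : 2 * |k0 v - k0 u| ≤ r := by linarith [not_le.mp hcon]
      have h6 : ν' (Icc u v) ≤ ENNReal.ofReal (C * Real.exp (-(Real.log (1 / r) ^ θ))) := by
        refine (g2 u v huv').2.trans (le_trans (measure_mono ?_) (hP _ (g2 u v huv').1).2)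
        exact image_mono (inter_subset_inter_right _ (closedBall_subset_closedBall h5))
      exact absurd (hm.trans h6) (not_le.mpr hlt)

end Pool.Agent.H.MP_4bdd60_an
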