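import Mathlib
import Pool.Agent.H.MP_4bdd60_an.W.Mk2
import Pool.Agent.H.MP_4bdd60_an.W.Cnd

/-!
# MP_4bdd60_an: removability of closed subsets of the curve is decided near the points
-/

set_option autoImplicit false

open Set Filter Topology Metric MeasureTheory
open scoped ENNReal Real

namespace Pool.Agent.H.MP_4bdd60_an

/-- If the measure charges every interval in `U` and `E` is a closed non-removable subset of the curve, then there is a
point `q` of `E` in `U` such that `E ∩ closedBall q ε` is not removable for any `ε > 0`, or `E \ U` is not removable. -/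
theorem closed_curve {φ χ : ℂ → ℂ} (hC : Curve φ χ) {u0 : ℂ} {k0 : ℝ → ℝ} (hu : ‖u0‖ = 1)
    (hk : Continuous k0)
    (hb : Function.Bijective k0) (hw : ∀ s : ℝ, χ (u0 * cay (k0 s)) = φ (cay s)) (h1 : χ u0 = φ 1)
    (nu : Measure ℝ) [IsProbabilityMeasure nu] (B s p : ℝ) (hB : 0 ≤ B) (hs0 : 0 < s) (hs : s < 1)
    (hp0 : 0 < p) (hp : p < 2)
    (n1 : ∀ u v, u ≤ v → ∀ t : ℝ, 0 < t → t ≤ 1 → ENNReal.ofReal t ≤ nu (Icc u v) →
      Real.exp (-(B * t ^ (-s))) ≤ v - u)
    (n2 : ∀ u v, u ≤ v → ∀ t : ℝ, 0 < t → t ≤ 1 → ENNReal.ofReal t ≤ nu (Icc u v) →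
      Real.exp (-(B * t ^ (-s))) ≤ |k0 v - k0 u|)
    (n3 : ∃ᶠ t in 𝓝[>] (0:ℝ), ∀ u v, u ≤ v → ENNReal.ofReal t ≤ nu (Icc u v) →
      Real.exp (-(B * Real.log (1 / t) ^ p)) ≤ v - u ∧
      Real.exp (-(B * Real.log (1 / t) ^ p)) ≤ |k0 v - k0 u|)
    {U : Set ℂ} (hU : IsOpen U)
    (n4 : ∀ c d : ℝ, c < d → (∀ x ∈ Icc c d, φ (cay x) ∈ U) → nu (Icc c d) ≠ 0)
    {E : Set ℂ} (hE : IsClosed E) (hEs : E ⊆ φ '' sphere 0 1)
    (f : ℂ ≃ₜ ℂ) (hf : DifferentiableOn ℂ f Eᶜ) (hfn : ¬ Differentiable ℂ f) :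
    (∃ q ∈ E ∩ U, ∀ ε : ℝ, 0 < ε →
      ∃ g : ℂ ≃ₜ ℂ, DifferentiableOn ℂ g (E ∩ closedBall q ε)ᶜ ∧ ¬ Differentiable ℂ g) ∨
    ∃ g : ℂ ≃ₜ ℂ, DifferentiableOn ℂ g (E \ U)ᶜ ∧ ¬ Differentiable ℂ g := by
  have hC' : Curve φ (fun u => χ (u0 * u)) := curve_rot hC hu
  have hmono : ∃ κ : ℝ, (κ = 1 ∨ κ = -1) ∧ StrictMono (fun s => κ * k0 s) := by
    rcases hk.strictMono_of_inj hb.1 with hm | hm
    · exact ⟨1, Or.inl rfl, by simpa using hm⟩
    · refine ⟨-1, Or.inr rfl, ?_⟩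
      intro x y hxy
      have := hm hxy
      simp only
      linarith
  obtain ⟨κ, hκ, hmono⟩ := hmono
  have e : ∀ u v : ℝ, u ≤ v →
      (fun s => κ * k0 s) v - (fun s => κ * k0 s) u = |k0 v - k0 u| := by
    intro u v huv
    have h0 : 0 ≤ κ * k0 v - κ * k0 u := sub_nonneg.2 (hmono.monotone huv)
    simp only
    rw [← abs_of_nonneg h0, ← mul_sub, abs_mul]
    rcases hκ with rfl | rfl <;> simp
  have hloops : ∀ c d : ℝ, c < d → (∀ x ∈ Icc c d, φ (cay x) ∈ U) → ∃ a b : ℝ, c ≤ a ∧ a < b ∧ b ≤ d ∧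
      LoopPoint (fun s => κ * k0 s) a ∧ LoopPoint (fun s => κ * k0 s) b := fun c d hcd hcU =>
    loops_in (fun s => κ * k0 s) hmono nu B s p hB hs0 hs hp0 hp n1
      (fun u v huv t ht ht1 h => by rw [e u v huv]; exact n2 u v huv t ht ht1 h)
      (n3.mono fun t ht u v huv h => by rw [e u v huv]; exact ht u v huv h) (n4 c d hcd hcU)
  by_cases hcon : ∃ q ∈ E ∩ U, ∀ ε : ℝ, 0 < ε →
      ∃ g : ℂ ≃ₜ ℂ, DifferentiableOn ℂ g (E ∩ closedBall q ε)ᶜ ∧ ¬ Differentiable ℂ g
  · exact Or.inl hcon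
  right
  refine ⟨f, ?_, hfn⟩
  have hPc : Continuous (fun s : ℝ => φ (cay s)) := hC.φ_cont.comp_continuous cay_continuous
    (fun s => sphere_subset_closedBall (cay_mem s))
  have hcl2 : IsClosed (E \ U) := hE.sdiff hU
  -- differentiability at the points of the line
  have hline : ∀ x : ℝ, φ (cay x) ∈ U → DifferentiableAt ℂ f (φ (cay x)) := by
    intro x hxU
    by_cases hxE : φ (cay x) ∈ E
    swap
    · exact hf.differentiableAt (hE.isOpen_compl.mem_nhds hxE)
    have hε : ∃ ε : ℝ, 0 < ε ∧ ∀ g : ℂ ≃ₜ ℂ,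
        DifferentiableOn ℂ g (E ∩ closedBall (φ (cay x)) ε)ᶜ → Differentiable ℂ g := by
      by_contra hno
      apply hcon
      refine ⟨φ (cay x), ⟨hxE, hxU⟩, ?_⟩
      intro ε hε
      by_contra hno2
      apply hno
      refine ⟨ε, hε, ?_⟩
      intro g hg
      by_contra hgn
      exact hno2 ⟨g, hg, hgn⟩
    obtain ⟨ε, hε, hK⟩ := hε
    obtain ⟨ε', hε', hU'⟩ := Metric.isOpen_iff.mp hU _ hxU
    obtain ⟨η, hη, hsmall⟩ := Metric.continuousAt_iff.mp (hPc.continuousAt (x := x)) (min ε ε')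
      (lt_min hε hε')
    have hinU : ∀ t : ℝ, dist t x < η → φ (cay t) ∈ U := fun t ht =>
      hU' (mem_ball.mpr ((hsmall ht).trans_le (min_le_right _ _)))
    obtain ⟨a, _, ha1, _, ha2, hla, _⟩ := hloops (x - η / 2) (x - η / 4) (by linarith) (by
      intro t ht
      apply hinU
      rw [Real.dist_eq, abs_lt]
      constructor
      · linarith [ht.1]
      · linarith [ht.2])
    obtain ⟨b, _, hb1, _, hb2, hlb, _⟩ := hloops (x + η / 4) (x + η / 2) (by linarith) (by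
      intro t ht
      apply hinU
      rw [Real.dist_eq, abs_lt]
      constructor
      · linarith [ht.1]
      · linarith [ht.2])
    have hax : a < x := by linarith
    have hxb : x < b := by linarith
    rcases of_loopPointsE hC' hk hw (by simp only [mul_one]; exact h1) hκ hmono (hax.trans hxb)
      hla hlb hE hEs f hf with ⟨g, hg1, hg2⟩ | h
    · refine absurd (hK g (hg1.mono (compl_subset_compl.mpr ?_))) hg2
      rintro z ⟨hz1, hz2⟩
      obtain ⟨w, ⟨s', hs', rfl⟩, rfl⟩ := hz2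
      refine ⟨hz1, ?_⟩
      have hd : dist s' x < η := by
        rw [Real.dist_eq, abs_lt]
        constructor
        · linarith [hs'.1]
        · linarith [hs'.2]
      exact ((hsmall hd).trans_le (min_le_left _ _)).le
    · exact h x hax hxb
  -- the complement of the rest of the set
  have hall : DifferentiableOn ℂ f ((E \ U)ᶜ \ {φ 1}) := by
    intro z hz
    by_cases hzE : z ∈ E
    · have hzU : z ∈ U := by
        by_contra hno
        exact hz.1 ⟨hzE, hno⟩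
      obtain ⟨w, hw1, rfl⟩ := hEs hzE
      have hw2 : w ≠ 1 := by
        rintro rfl
        exact hz.2 rfl
      obtain ⟨s', rfl, _⟩ := cay_surj (by simpa using hw1) hw2
      exact (hline s' hzU).differentiableWithinAt
    · exact (hf.differentiableAt (hE.isOpen_compl.mem_nhds hzE)).differentiableWithinAt
  by_cases h1U : φ 1 ∈ (E \ U)ᶜ
  · exact (Complex.differentiableOn_compl_singleton_and_continuousAt_iff
      (hcl2.isOpen_compl.mem_nhds h1U)).mp ⟨hall, f.continuous.continuousAt⟩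
  · intro z hz
    have hz1 : z ≠ φ 1 := by
      rintro rfl
      exact h1U hz
    exact ((hall z ⟨hz, hz1⟩).differentiableAt
      ((hcl2.isOpen_compl.sdiff isClosed_singleton).mem_nhds ⟨hz, hz1⟩)).differentiableWithinAt

end Pool.Agent.H.MP_4bdd60_an
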