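import Mathlib
import Pool.Agent.H.MP_4bdd60_an.W.Mk2
import Pool.Agent.H.MP_4bdd60_an.W.Cnd
import Pool.Agent.H.MP_4bdd60_an.W.Brl

/-!
# MP_4bdd60_an: two arcs with end points in a given open set
-/

set_option autoImplicit false

open Set Filter Topology Metric MeasureTheory
open scoped ENNReal Real

namespace Pool.Agent.H.MP_4bdd60_an

/-- an open subset of the line of positive measure contains a compact interval of positive measure -/
theorem Spl_int (nu : Measure ℝ) {W : Set ℝ} (hW : IsOpen W) (hpos : nu W ≠ 0) :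
    ∃ c d : ℝ, Icc c d ⊆ W ∧ nu (Icc c d) ≠ 0 := by
  classical
  by_contra hcon
  push Not at hcon
  apply hpos
  have hcov : W ⊆ ⋃ r : ℚ × ℚ,
      if Icc (r.1 : ℝ) (r.2 : ℝ) ⊆ W then Icc (r.1 : ℝ) (r.2 : ℝ) else ∅ := by
    intro x hx
    obtain ⟨ε, hε, hball⟩ := Metric.isOpen_iff.mp hW x hx
    obtain ⟨c, hc1, hc2⟩ := exists_rat_btwn (show x - ε / 2 < x by linarith)
    obtain ⟨d, hd1, hd2⟩ := exists_rat_btwn (show x < x + ε / 2 by linarith)
    rw [mem_iUnion]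
    refine ⟨(c, d), ?_⟩
    have hsub : Icc (c : ℝ) (d : ℝ) ⊆ W := by
      intro y hy
      apply hball
      rw [mem_ball, Real.dist_eq, abs_lt]
      constructor
      · linarith [hy.1]
      · linarith [hy.2]
    rw [if_pos hsub]
    exact ⟨hc2.le, hd1.le⟩
  refine measure_mono_null hcov (measure_iUnion_null fun r => ?_)
  split_ifs with h
  · exact hcon _ _ h
  · exact measure_empty

theorem Spl_arcs {φ χ : ℂ → ℂ} (hC : Curve φ χ) {k0 : ℝ → ℝ} (hk : Continuous k0)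
    (hw : ∀ s : ℝ, χ (cay (k0 s)) = φ (cay s)) (h1 : χ 1 = φ 1)
    {κ : ℝ} (hκ : κ = 1 ∨ κ = -1) (hmono : StrictMono (fun s => κ * k0 s)) {y1 y2 : ℝ} (h12 : y1 < y2)
    (hl1 : LoopPoint (fun s => κ * k0 s) y1) (hl2 : LoopPoint (fun s => κ * k0 s) y2) :
    ∃ K L : Set ℂ, IsClosed K ∧ IsClosed L ∧ IsConnected K ∧ IsConnected L ∧
      K ∪ L = φ '' sphere 0 1 ∧ K ∩ L = {φ (cay y1), φ (cay y2)} ∧
      K ≠ φ '' sphere 0 1 ∧ L ≠ φ '' sphere 0 1 ∧
      ∀ E : Set ℂ, IsClosed E → E ⊆ φ '' sphere 0 1 →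
        (∃ f : ℂ ≃ₜ ℂ, DifferentiableOn ℂ f Eᶜ ∧ ¬ Differentiable ℂ f) →
        (∃ g : ℂ ≃ₜ ℂ, DifferentiableOn ℂ g (E ∩ K)ᶜ ∧ ¬ Differentiable ℂ g) ∨
          ∃ g : ℂ ≃ₜ ℂ, DifferentiableOn ℂ g (E ∩ L)ᶜ ∧ ¬ Differentiable ℂ g := by
  have hPc : Continuous (fun s : ℝ => φ (cay s)) := hC.φ_cont.comp_continuous cay_continuous
    (fun s => sphere_subset_closedBall (cay_mem s))
  have hinj : InjOn φ (sphere (0 : ℂ) 1) := hC.φ_inj.mono sphere_subset_closedBall
  have hcs : ContinuousOn φ (sphere (0 : ℂ) 1) := hC.φ_cont.mono sphere_subset_closedBall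
  have hcayI : cay '' Icc y1 y2 ⊆ sphere (0 : ℂ) 1 := by
    rintro _ ⟨s, _, rfl⟩
    exact cay_mem s
  have hcayo : cay '' Ioo y1 y2 ⊆ sphere (0 : ℂ) 1 := by
    rintro _ ⟨s, _, rfl⟩
    exact cay_mem s
  have hLc : IsClosed (φ '' (sphere (0 : ℂ) 1 \ cay '' Ioo y1 y2)) := by
    have h2 : IsCompact (sphere (0 : ℂ) 1 \ cay '' Ioo y1 y2) :=
      (isCompact_sphere (0 : ℂ) 1).of_isClosed_subset (S6_closed y1 y2) sdiff_subset
    exact (h2.image_of_continuousOn (hcs.mono sdiff_subset)).isClosed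
  have h1s : (1 : ℂ) ∈ sphere (0 : ℂ) 1 := by simp
  have h1I : (1 : ℂ) ∉ cay '' Icc y1 y2 := by
    rintro ⟨t, _, h0⟩
    exact S6_cay_ne_one t h0
  have hmid : cay ((y1 + y2) / 2) ∈ cay '' Ioo y1 y2 :=
    mem_image_of_mem _ ⟨by linarith, by linarith⟩
  refine ⟨φ '' (cay '' Icc y1 y2), φ '' (sphere (0 : ℂ) 1 \ cay '' Ioo y1 y2), ?_, hLc, ?_, ?_, ?_,
    ?_, ?_, ?_, ?_⟩
  · rw [image_image]
    exact (isCompact_Icc.image hPc).isClosed
  · rw [image_image]
    exact (isConnected_Icc h12.le).image _ hPc.continuousOn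
  · -- the outer arc is connected
    have hcl1 : (1 : ℂ) ∈ closure (cay '' Iic y1) := by
      refine mem_closure_of_tendsto S6_tendsto_atBot ?_
      filter_upwards [eventually_le_atBot y1] with s hs
      exact mem_image_of_mem _ hs
    have hcl2 : (1 : ℂ) ∈ closure (cay '' Ici y2) := by
      refine mem_closure_of_tendsto S6_tendsto_atTop ?_
      filter_upwards [eventually_ge_atTop y2] with s hs
      exact mem_image_of_mem _ hs
    have hp1 : IsPreconnected (cay '' Iic y1 ∪ {1}) := by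
      refine (isPreconnected_Iic.image cay cay_continuous.continuousOn).subset_closure
        subset_union_left ?_
      exact union_subset subset_closure (by rw [singleton_subset_iff]; exact hcl1)
    have hp2 : IsPreconnected (cay '' Ici y2 ∪ {1}) := by
      refine (isPreconnected_Ici.image cay cay_continuous.continuousOn).subset_closure
        subset_union_left ?_
      exact union_subset subset_closure (by rw [singleton_subset_iff]; exact hcl2)
    have heq : sphere (0 : ℂ) 1 \ cay '' Ioo y1 y2 =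
        (cay '' Iic y1 ∪ {1}) ∪ (cay '' Ici y2 ∪ {1}) := by
      apply Subset.antisymm
      · rintro z ⟨hz, hz2⟩
        by_cases hz1 : z = 1
        · exact Or.inl (Or.inr hz1)
        · obtain ⟨s, rfl, _⟩ := cay_surj (by simpa using hz) hz1
          rcases le_or_gt s y1 with h3 | h3
          · exact Or.inl (Or.inl (mem_image_of_mem _ h3))
          · rcases le_or_gt y2 s with h4 | h4
            · exact Or.inr (Or.inl (mem_image_of_mem _ h4))
            · exact absurd (mem_image_of_mem cay (show s ∈ Ioo y1 y2 from ⟨h3, h4⟩)) hz2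
      · rintro z ((⟨s, hs, rfl⟩ | h0) | (⟨s, hs, rfl⟩ | h0))
        · refine ⟨cay_mem s, ?_⟩
          rintro ⟨t, ht, h0⟩
          have := cay_injective h0
          subst this
          exact absurd ht.1 (not_lt.mpr hs)
        · rw [mem_singleton_iff] at h0
          subst h0
          refine ⟨h1s, ?_⟩
          rintro ⟨t, ht, h0⟩
          exact S6_cay_ne_one t h0
        · refine ⟨cay_mem s, ?_⟩
          rintro ⟨t, ht, h0⟩
          have := cay_injective h0
          subst this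
          exact absurd ht.2 (not_lt.mpr hs)
        · rw [mem_singleton_iff] at h0
          subst h0
          refine ⟨h1s, ?_⟩
          rintro ⟨t, ht, h0⟩
          exact S6_cay_ne_one t h0
    have hpre : IsPreconnected (sphere (0 : ℂ) 1 \ cay '' Ioo y1 y2) := by
      rw [heq]
      exact hp1.union 1 (Or.inr rfl) (Or.inr rfl) hp2
    refine ⟨⟨φ 1, mem_image_of_mem _ ⟨h1s, fun h => h1I (image_mono Ioo_subset_Icc_self h)⟩⟩, ?_⟩
    exact hpre.image φ (hcs.mono sdiff_subset)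
  · rw [← image_union]
    congr 1
    apply Subset.antisymm
    · exact union_subset hcayI sdiff_subset
    · intro z hz
      by_cases hzI : z ∈ cay '' Ioo y1 y2
      · exact Or.inl (image_mono Ioo_subset_Icc_self hzI)
      · exact Or.inr ⟨hz, hzI⟩
  · rw [← hinj.image_inter hcayI sdiff_subset, ← image_pair]
    congr 1
    apply Subset.antisymm
    · rintro z ⟨⟨s, hs, rfl⟩, _, hz2⟩
      rcases eq_or_lt_of_le hs.1 with h3 | h3
      · left
        rw [← h3]
      · rcases eq_or_lt_of_le hs.2 with h4 | h4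
        · right
          rw [h4]
          rfl
        · exact absurd (mem_image_of_mem cay (show s ∈ Ioo y1 y2 from ⟨h3, h4⟩)) hz2
    · rintro z (h3 | h3)
      · rw [h3]
        refine ⟨mem_image_of_mem _ ⟨le_rfl, h12.le⟩, cay_mem y1, ?_⟩
        rintro ⟨t, ht, h0⟩
        have := cay_injective h0
        subst this
        exact lt_irrefl _ ht.1
      · rw [mem_singleton_iff] at h3
        rw [h3]
        refine ⟨mem_image_of_mem _ ⟨h12.le, le_rfl⟩, cay_mem y2, ?_⟩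
        rintro ⟨t, ht, h0⟩
        have := cay_injective h0
        subst this
        exact lt_irrefl _ ht.2
  · intro heq
    have h3 : φ 1 ∈ φ '' (cay '' Icc y1 y2) := by
      rw [heq]
      exact mem_image_of_mem _ h1s
    obtain ⟨w, hw1, hw2⟩ := h3
    have := hinj (hcayI hw1) h1s hw2
    rw [this] at hw1
    exact h1I hw1
  · intro heq
    have h3 : φ (cay ((y1 + y2) / 2)) ∈ φ '' (sphere (0 : ℂ) 1 \ cay '' Ioo y1 y2) := by
      rw [heq]
      exact mem_image_of_mem _ (cay_mem _)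
    obtain ⟨w, ⟨hw1, hw2⟩, hw3⟩ := h3
    have := hinj hw1 (cay_mem _) hw3
    rw [this] at hw2
    exact hw2 hmid
  · intro E hE hEs hf
    obtain ⟨f, hf1, hf2⟩ := hf
    rcases of_loopPointsE hC hk hw h1 hκ hmono h12 hl1 hl2 hE hEs f hf1 with h | h
    · exact Or.inl h
    · right
      refine ⟨f, ?_, hf2⟩
      intro z hz
      by_cases hzE : z ∈ E
      · obtain ⟨w, hw1, rfl⟩ := hEs hzE
        have hwI : w ∈ cay '' Ioo y1 y2 := by
          by_contra hno
          exact hz ⟨hzE, mem_image_of_mem _ ⟨hw1, hno⟩⟩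
        obtain ⟨x, hx, rfl⟩ := hwI
        exact (h x hx.1 hx.2).differentiableWithinAt
      · exact (hf1.differentiableAt (hE.isOpen_compl.mem_nhds hzE)).differentiableWithinAt

theorem split_curve {φ χ : ℂ → ℂ} (hC : Curve φ χ) {u0 : ℂ} {k0 : ℝ → ℝ} (hu : ‖u0‖ = 1)
    (hk : Continuous k0)
    (hb : Function.Bijective k0) (hw : ∀ s : ℝ, χ (u0 * cay (k0 s)) = φ (cay s)) (h1 : χ u0 = φ 1)
    (nu : Measure ℝ) [IsProbabilityMeasure nu] (B s p : ℝ) (hB : 0 ≤ B) (hs0 : 0 < s) (hs : s < 1)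
    (hp0 : 0 < p) (hp : p < 2)
    (n1 : ∀ u v, u ≤ v → ∀ t : ℝ, 0 < t → t ≤ 1 → ENNReal.ofReal t ≤ nu (Icc u v) →
      Real.exp (-(B * t ^ (-s))) ≤ v - u)
    (n2 : ∀ u v, u ≤ v → ∀ t : ℝ, 0 < t → t ≤ 1 → ENNReal.ofReal t ≤ nu (Icc u v) →
      Real.exp (-(B * t ^ (-s))) ≤ |k0 v - k0 u|)
    (n3 : ∃ᶠ t in 𝓝[>] (0:ℝ), ∀ u v, u ≤ v → ENNReal.ofReal t ≤ nu (Icc u v) →
      Real.exp (-(B * Real.log (1 / t) ^ p)) ≤ v - u ∧
      Real.exp (-(B * Real.log (1 / t) ^ p)) ≤ |k0 v - k0 u|)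
    {V : Set ℂ} (hV : IsOpen V) (n4 : nu ((fun s : ℝ => φ (cay s)) ⁻¹' V) ≠ 0) :
    ∃ (K L : Set ℂ) (a b : ℂ), a ∈ V ∧ b ∈ V ∧ a ≠ b ∧ IsClosed K ∧ IsClosed L ∧ IsConnected K ∧
      IsConnected L ∧ K ∪ L = φ '' sphere 0 1 ∧ K ∩ L = {a, b} ∧
      K ≠ φ '' sphere 0 1 ∧ L ≠ φ '' sphere 0 1 ∧
      ∀ E : Set ℂ, IsClosed E → E ⊆ φ '' sphere 0 1 →
        (∃ f : ℂ ≃ₜ ℂ, DifferentiableOn ℂ f Eᶜ ∧ ¬ Differentiable ℂ f) →
        (∃ g : ℂ ≃ₜ ℂ, DifferentiableOn ℂ g (E ∩ K)ᶜ ∧ ¬ Differentiable ℂ g) ∨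
          ∃ g : ℂ ≃ₜ ℂ, DifferentiableOn ℂ g (E ∩ L)ᶜ ∧ ¬ Differentiable ℂ g := by
  have hC' : Curve φ (fun u => χ (u0 * u)) := curve_rot hC hu
  have hmono : ∃ κ : ℝ, (κ = 1 ∨ κ = -1) ∧ StrictMono (fun s => κ * k0 s) := by
    rcases hk.strictMono_of_inj hb.1 with hm | hm
    · exact ⟨1, Or.inl rfl, by simpa using hm⟩
    · refine ⟨-1, Or.inr rfl, ?_⟩
      intro x y hxy
      have := hm hxy
      simp only
      linarith
  obtain ⟨κ, hκ, hmono⟩ := hmono
  have e : ∀ u v : ℝ, u ≤ v →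
      (fun s => κ * k0 s) v - (fun s => κ * k0 s) u = |k0 v - k0 u| := by
    intro u v huv
    have h0 : 0 ≤ κ * k0 v - κ * k0 u := sub_nonneg.2 (hmono.monotone huv)
    simp only
    rw [← abs_of_nonneg h0, ← mul_sub, abs_mul]
    rcases hκ with rfl | rfl <;> simp
  have hPc : Continuous (fun s : ℝ => φ (cay s)) := hC.φ_cont.comp_continuous cay_continuous
    (fun s => sphere_subset_closedBall (cay_mem s))
  obtain ⟨c, d, hcd, hpos⟩ := Spl_int nu (hV.preimage hPc) n4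
  obtain ⟨y1, y2, hc, h12, hd, hl1, hl2⟩ :=
    loops_in (fun s => κ * k0 s) hmono nu B s p hB hs0 hs hp0 hp n1
      (fun u v huv t ht ht1 h => by rw [e u v huv]; exact n2 u v huv t ht ht1 h)
      (n3.mono fun t ht u v huv h => by rw [e u v huv]; exact ht u v huv h) hpos
  obtain ⟨K, L, hall⟩ := Spl_arcs hC' hk hw (by simp only [mul_one]; exact h1) hκ hmono h12 hl1 hl2
  refine ⟨K, L, φ (cay y1), φ (cay y2), hcd ⟨hc, (h12.trans_le hd).le⟩,
    hcd ⟨(hc.trans_lt h12).le, hd⟩, ?_, hall⟩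
  intro h0
  have := cay_injective (hC.φ_inj (sphere_subset_closedBall (cay_mem y1))
    (sphere_subset_closedBall (cay_mem y2)) h0)
  exact absurd this h12.ne

/-- an open set of positive measure has a preimage of positive measure on the line -/
theorem Spl_pos {φ : ℂ → ℂ} (ν : Measure ℂ) (nu : Measure ℝ)
    (hap : ∀ S : Set ℝ, nu S = ν ((fun s : ℝ => φ (cay s)) '' S))
    (hν : ν (φ '' sphere 0 1)ᶜ = 0) (h1 : ν {φ 1} = 0) {V : Set ℂ} (hV : 0 < ν V) :
    nu ((fun s : ℝ => φ (cay s)) ⁻¹' V) ≠ 0 := by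
  intro h0
  rw [hap] at h0
  have hsub : V ⊆ ((fun s : ℝ => φ (cay s)) '' ((fun s : ℝ => φ (cay s)) ⁻¹' V)) ∪
      ((φ '' sphere 0 1)ᶜ ∪ {φ 1}) := by
    intro z hz
    by_cases hzΓ : z ∈ φ '' sphere 0 1
    · obtain ⟨w, hw, rfl⟩ := hzΓ
      by_cases hw1 : w = 1
      · right
        right
        rw [hw1]
        rfl
      · obtain ⟨s, rfl, _⟩ := cay_surj (by simpa using hw) hw1
        left
        exact ⟨s, hz, rfl⟩
    · exact Or.inr (Or.inl hzΓ)
  have h3 : ν V = 0 := measure_mono_null hsub (measure_union_null h0 (measure_union_null hν h1))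
  exact hV.ne' h3

end Pool.Agent.H.MP_4bdd60_an
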